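import Pool.Agent.H50.SM.Sepx

/-!
# MP_f981b0_an: direct summands of trace class perturbations of normal operators have invariant
subspaces

Let `N` be a normal operator and `K` a trace class operator on a complex Hilbert space `H`. If a bounded
operator `T` on a separable Banach space `E` of dimension at least two is (similar to) a direct summand
of `N + K`, then `T` has a nontrivial closed invariant subspace. There is no condition on `N`, on `K`, on
the complementary summand, or on the spectrum of `T`. In particular: if `N` is normal and the orthogonal
projection `Q` onto a closed separable subspace `M` commutes with `N` up to a trace class operator, then every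
trace class perturbation of the compression of `N` to `M` has a nontrivial closed invariant subspace. If
the spectrum of `T` has area zero, then `T` is a multiple of the identity or has a nontrivial closed
hyperinvariant subspace.

The starting library has the case `T = N + K` (`TraceClassPerturbations`, hyperinvariant subspaces), and
the summands defined by reducing subspaces of reductive operators `N + K`
(`ReductiveTraceClass`, MP_49c4d9_an). A direct summand of `N + K` need not be a trace class
perturbation of a normal operator: the unilateral shift, all Toeplitz operators with twice continuously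
differentiable symbols and similar operators with nonzero index are direct summands. So the theorem
also contains an index phenomenon: `T - z` may have a kernel, in a generalised sense, on a set of
positive area on which the adjoint has none. This is the situation of the theorem of S. Brown on
subnormal operators (not the operator but only an extension is normal), and it is treated here by the
scheme of Thomson.

Proof. `N` is the multiplication by `φ` on `L²(μ)`, `K = ∑ u_j ⊗ v_j`, `P` the idempotent of the summand,
`F(z) = (⟪v_i, (z - N)⁻¹ u_j⟫)`, `G(z) = (⟪P† v_i, (z - N)⁻¹ u_j⟫)`,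
`G'(z) = (⟪v_i, (z - N)⁻¹ P u_j⟫)`, `H'(z) = (⟪P† v_i, (z - N)⁻¹ P u_j⟫)`, Hilbert-Schmidt matrices for
almost every `z`, with `(1 - F) G = G' (1 - F)`, `G - G² = H' (1 - F)`, `G' - G'² = (1 - F) H'`
(library project TR). `ker (1 - F(z))` is the space of generalised eigenvectors of `N + K` at `z`, and
`G(z)` is an idempotent on it: the part in the range of `P`. Let `k(z)` and `k*(z)` be the dimensions
of this part for `N + K` and for the adjoint.

(1) Let `k > 0 = k*` on a set of positive area. Let `a` be a generic point of this set, `F(a) c = c`,
`G(a) c = c`, `c_i ≠ 0` and `x = P† v_i`. (a) Persistence: since `k*(a) = 0` the equation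
`(1 - F(a)) S = G'(a)` is solvable, and the algebraic relations give, for all `z` at which the four
matrices are near those at `a`, a vector in `ker (1 - F(z))` near `c`. This replaces index theory.
(b) The matrices are approximately continuous at `a` with respect to all densities of weak type one on
connected sets. (c) For a polynomial `p` and `d` in the unit ball of `ker (1 - F(z))`:
`|p(z)| |(G(z) d)_i| ≤ |(⟪p*(T†) x, (z - N)⁻¹ u_j⟫)_j|`. So there is a weight `W(z)` with
`|p(z)| W(z) ≤ |(⟪p*(T†) x, (z - N)⁻¹ u_j⟫)_j|` for all `p`, which by (a) and (b) is bounded below on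
most of every connected set near `a`. (d) By the alternative of the library (cheap polygons or
cut-off functions `Θ` with `|∂̄ Θ| ≤ C W`) there are such cut-off functions around `a`, and Pompeiu's
formula bounds `p(a)` by the norm of `p*(T†) x`: a bounded point evaluation on the cyclic subspace of
`x`, and `x` is not in the closure of `(T† - ā) p(T†) x`.

(2) Otherwise, by (1) for `T` and the adjoint, `k(z) = 0` if and only if `k*(z) = 0`, almost everywhere,
and at every point `a` of the spectrum, for every `r > 0`, there are nonzero vectors `x` of the summand
with `‖(T - a)^n x‖ ≤ C r^n`, and also for the adjoint (or eigenvectors): from the kernels if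
`k, k* > 0` on a set of positive area near `a`, from the alternative of project TR otherwise. Vectors of
this kind at different points annihilate each other across the commutant.

(3) If the spectrum is one point `a`, then `T - a` is compact (log-convexity of the norms `‖N^n x‖`), and
Lomonosov's theorem applies. If the spectrum has area zero, then `k = k* = 0` almost everywhere, and
only (2) and (3) occur, which give hyperinvariant subspaces.

Plan, statements, assembly, modules SYS0 LNK2 ALT THM MOD LOM ORT FIN AEZ MDH FNH: helper50. ALG, IRR:
helper57. APX, HVY: helper64. WGT: helper75. EVL, SPC, LMH: helper40. EVI, TCA: helper82. ADJ, DUB,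
QNC, EIG, DUH: helper58. RSV: helper11. The library projects TC and TR are by helper130 and others.
-/

set_option autoImplicit false

open MeasureTheory
open scoped InnerProductSpace

namespace Pool.Agent.Results.MP_f981b0_an.DirectSummands

section Defs

/-- `K` is of trace class: `K f = ∑ ⟪v j, f⟫ u j` with `∑ ‖u j‖² < ∞` and `∑ ‖v j‖² < ∞`. -/
def TraceClass {H : Type} [NormedAddCommGroup H] [InnerProductSpace ℂ H] (K : H →L[ℂ] H) : Prop :=
  ∃ u v : ℕ → H, Summable (fun j => ‖u j‖ ^ 2) ∧ Summable (fun j => ‖v j‖ ^ 2) ∧
    ∀ f, HasSum (fun j => ⟪v j, f⟫_ℂ • u j) (K f)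

variable {E H : Type} [NormedAddCommGroup E] [NormedSpace ℂ E] [NormedAddCommGroup H]
  [InnerProductSpace ℂ H]

/-- `T` is similar to a direct summand of `A`: there are bounded operators `J : E → H` and
`R : H → E` with `R J = 1`, `A J = J T` and `R A = T R` (so `J R` is a bounded idempotent which
commutes with `A`, and `J` is an isomorphism of `E` onto its range which carries `T` to the restriction
of `A`). -/
def IsSummand (T : E →L[ℂ] E) (A : H →L[ℂ] H) : Prop :=
  ∃ (J : E →L[ℂ] H) (R : H →L[ℂ] E), (∀ x, R (J x) = x) ∧ (∀ x, A (J x) = J (T x)) ∧
    ∀ y, R (A y) = T (R y)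

/-- `T` is a multiple of the identity. -/
def IsScalar (T : E →L[ℂ] E) : Prop := ∃ c : ℂ, T = c • (1 : E →L[ℂ] E)

/-- `T` has a closed invariant subspace other than `{0}` and `E`. -/
def HasInvariant (T : E →L[ℂ] E) : Prop :=
  ∃ V : Submodule ℂ E, IsClosed (V : Set E) ∧ V ≠ ⊥ ∧ V ≠ ⊤ ∧ ∀ x ∈ V, T x ∈ V

/-- `T` has a closed subspace, neither `{0}` nor `E`, which is invariant under every bounded operator
commuting with `T`. -/
def HasHyperinvariant (T : E →L[ℂ] E) : Prop :=
  ∃ V : Submodule ℂ E, IsClosed (V : Set E) ∧ V ≠ ⊥ ∧ V ≠ ⊤ ∧
    ∀ Q : E →L[ℂ] E, Q * T = T * Q → ∀ x ∈ V, Q x ∈ V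

variable (E) in
/-- The dimension of `E` is at least two. -/
def DimAtLeastTwo : Prop := ¬ ∃ x : E, ∀ y : E, ∃ t : ℂ, y = t • x

/-- The conclusion: `T` has a nontrivial closed invariant subspace if the dimension is at least two;
if the spectrum has area zero, then `T` is scalar or has a nontrivial closed hyperinvariant subspace. -/
def Conclusion (T : E →L[ℂ] E) : Prop :=
  (DimAtLeastTwo E → HasInvariant T) ∧
    (volume (spectrum ℂ T) = 0 → IsScalar T ∨ HasHyperinvariant T)

/-- `A = N + K` with `N` normal and `K` of trace class. -/
def NormalPlusTraceClass [CompleteSpace H] (A : H →L[ℂ] H) : Prop :=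
  ∃ N K : H →L[ℂ] H, IsStarNormal N ∧ TraceClass K ∧ A = N + K

/-- `T` is the compression of `N + K` to the closed subspace `M`, with `N` normal, `K` of trace class,
and the projection onto `M` commutes with `N` up to a trace class operator. -/
def IsCompression [CompleteSpace H] (M : Submodule ℂ H) [M.HasOrthogonalProjection]
    (T : M →L[ℂ] M) : Prop :=
  ∃ N K : H →L[ℂ] H, IsStarNormal N ∧ TraceClass K ∧
    TraceClass (N * M.starProjection - M.starProjection * N) ∧
    ∀ x : M, ((T x : M) : H) = M.starProjection ((N + K) x)

end Defs

/-- **Direct summands of trace class perturbations of normal operators.** Let `N` be normal and `K` of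
trace class on a Hilbert space. (1) If `T`, on a separable Banach space, is similar to a direct summand
of `N + K`, then `T` has a nontrivial closed invariant subspace (if the dimension is at least two), and if
the spectrum of `T` has area zero, then `T` is a multiple of the identity or has a nontrivial closed
hyperinvariant subspace. (2) The same holds for the compression `T` of `N + K` to a separable closed
subspace `M`, if the projection onto `M` commutes with `N` up to a trace class operator. -/
theorem result :
    (∀ (E H : Type) [NormedAddCommGroup E] [NormedSpace ℂ E] [CompleteSpace E]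
      [TopologicalSpace.SeparableSpace E] [NormedAddCommGroup H] [InnerProductSpace ℂ H]
      [CompleteSpace H] (T : E →L[ℂ] E) (A : H →L[ℂ] H),
      NormalPlusTraceClass A → IsSummand T A → Conclusion T) ∧
    ∀ (H : Type) [NormedAddCommGroup H] [InnerProductSpace ℂ H] [CompleteSpace H]
      (M : Submodule ℂ H) [M.HasOrthogonalProjection] [TopologicalSpace.SeparableSpace M]
      (T : M →L[ℂ] M), IsCompression M T → Conclusion T := by
  have h1 : ∀ (E H : Type) [NormedAddCommGroup E] [NormedSpace ℂ E] [CompleteSpace E]
      [TopologicalSpace.SeparableSpace E] [NormedAddCommGroup H] [InnerProductSpace ℂ H]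
      [CompleteSpace H] (T : E →L[ℂ] E) (N K : H →L[ℂ] H),
      IsStarNormal N → TraceClass K → IsSummand T (N + K) → Conclusion T := by
    intro E H _ _ _ _ _ _ _ T N K hN hK hS
    obtain ⟨u, v, hu, hv, huv⟩ := hK
    obtain ⟨J, R, h1, h2, h3⟩ := hS
    obtain ⟨M, hMc, hMs, N', K', u', v', J', R', hN', hK', hs⟩ :=
      Pool.Agent.H50.SM.SEPX.sepx hN (u := u) (v := v) ⟨hu, hv, huv⟩
        (J := J) (R := R) (T := T) ⟨h1, h2, h3⟩
    refine ⟨fun hd => hs.ni (Pool.Agent.H50.SM.main M N' K' (J' ∘L R') hN' u' v' hK' hs.idem
      hs.comm (hs.dim2 hd)), fun h0 => ?_⟩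
    rcases Pool.Agent.H50.SM.mainH M N' K' (J' ∘L R') hN' u' v' hK' hs.idem hs.comm
      (by
        have h4 : ∀ᵐ z : ℂ, z ∉ spectrum ℂ T := by
          rw [ae_iff]
          simpa using h0
        filter_upwards [h4] with z hz
        exact hs.bij hz) with h | h
    · exact Or.inl (hs.sc' h)
    · exact Or.inr (hs.nh h)
  refine ⟨?_, ?_⟩
  · rintro E H _ _ _ _ _ _ _ T A ⟨N, K, hN, hK, rfl⟩ hS
    exact h1 E H T N K hN hK hS
  rintro H _ _ _ M _ _ T ⟨N, K, hN, hK, hC, hT⟩
  obtain ⟨u, v, hu, hv, huv⟩ := hK
  obtain ⟨u', v', hu', hv', huv'⟩ := hC
  have hQQ : M.starProjection * M.starProjection = M.starProjection := by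
    ext y
    exact Submodule.starProjection_eq_self_iff.2 (M.starProjection_apply_mem y)
  obtain ⟨K', ⟨p, q, hp, hq, hpq⟩, g1, g2⟩ := Pool.Agent.H50.SM.compr N K M.starProjection
    (u := u) (v := v) ⟨hu, hv, huv⟩ hQQ (u' := u') (v' := v') ⟨hu', hv', huv'⟩
  have : CompleteSpace M := by
    have h5 : IsClosed (M : Set H) := by
      have h6 : (M : Set H) = {x | M.starProjection x = x} := by
        ext x
        exact Submodule.starProjection_eq_self_iff.symm
      rw [h6]
      exact isClosed_eq M.starProjection.continuous continuous_id
    exact h5.completeSpace_coe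
  have hx : ∀ x : M, M.starProjection (x : H) = x := fun x =>
    Submodule.starProjection_eq_self_iff.2 x.2
  have e1 : ∀ x : M, (N + K') (x : H) = ((T x : M) : H) := by
    intro x
    rw [hT]
    have h5 := congrArg (fun A : H →L[ℂ] H => A x) g2
    have h6 : (N + K') (M.starProjection (x : H)) =
        M.starProjection ((N + K) (M.starProjection (x : H))) := h5
    rwa [hx] at h6
  refine h1 M H T N K' hN ⟨p, q, hp, hq, hpq⟩ ⟨M.subtypeL, M.orthogonalProjectionOnto, ?_, ?_, ?_⟩
  · intro x
    apply Subtype.ext
    exact hx x
  · intro x
    exact e1 x
  · intro y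
    apply Subtype.ext
    have h5 : M.starProjection ((N + K') y) = (N + K') (M.starProjection y) :=
      congrArg (fun A : H →L[ℂ] H => A y) g1
    have h6 := e1 (M.orthogonalProjectionOnto y)
    exact h5.trans h6

end Pool.Agent.Results.MP_f981b0_an.DirectSummands
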