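import Pool.Agent.H21.And17

/-!
# Random operators with independent random coefficients, at any disorder strength

Let the countable infinite group `G` act ergodically on the probability space `(Ω, P)`.  A random operator is
a bounded measurable covariant family of operators `A ω` on `ℓ²(G)`; covariance says that `A (g ω)` is the
translate of `A ω` by `g`.  The constant families are the operators commuting with all translations.  Let
`ξ = (ξ_v)`, `v ∈ G`, be independent complex random variables with the same compactly supported law `μ`,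
independent of `ω`, and let `D` be the diagonal operator with the entries `ξ_v`.

Theorem.  Let `A, W, V` be random operators.  For almost every `(ω, ξ)` the operator
`T = A ω + W ω D V ω` has a nontrivial hyperinvariant subspace, in each of the following cases.

(a) `V = 1`, all `W ω` are diagonal, `W ω ≠ 0` with positive probability, and `μ` is not polar, that is,
some nonzero measure `σ ≤ μ` has bounded logarithmic potential.  (Then `T = A + diag (α ξ)`.  Examples: `μ`
has an absolutely continuous part in the plane or on a line, or a part `σ` with `σ(B(z, r)) ≤ C r^a` for some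
`a > 0`.  For `W = 1` this is the Anderson model `A + diag (ξ)`, in which `A` need not be selfadjoint nor a
discrete Laplacian, nor of finite range, and the disorder may be arbitrarily small.  For `W = 1_S`, `S` a
stationary ergodic random set of sites, the potential acts only on the sites of `S`.)

(b) `V` has an inverse which is a random operator, the Fuglede-Kadison determinant of `W` is positive,
and `μ` has bounded logarithmic potential.  (Examples: `W`, `V` translations or invertible; random hopping
terms, random multiplication operators from the left or the right.)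

Proof.  The random operators over `Ω × ℂ^G` form a C*-algebra with trace `τ(X) = E ⟨δ, X δ⟩`; the action is
ergodic (`And6`).
(1) Let `X` and `X'` be random operators whose columns differ only at a random set of sites with projection
`p`, and let `Y = X (1 - p)`.  By a block decomposition of `δ + |X|²` its determinant is that of
`δ + |Y|²` on the range of `1 - p` times that of the Schur complement `V(X) = p (δ + X* R X) p` with
`R = δ (δ + Y Y*)⁻¹` (`And1`).  Jensen's inequality, and an estimate for its error by the off-diagonal entries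
of `p (δ + |X|²)⁻¹ p`, give upper and lower bounds of `τ log V(X)` by integrals of
`log (δ + ⟨X δ_v, R X δ_v⟩)` over the sites `v` of the random set (`And2` - `And4`).
(2) Let every site have a chance `h` to be resampled.  Given the other sites, `δ + ⟨X δ_v, R X δ_v⟩` is
a quadratic function `γ + α |ξ_v - z|²` of the coefficient; the error in (1) is of order `h²`.  So, if
`∫ log (γ + α |ξ - z|²) dλ ≤ ∫ log (γ + α |ξ - z|²) dμ + K` for all `γ, α, z`, and the coefficients of law
`μ` are replaced by coefficients of law `λ`, a small proportion at a time, then `τ log (δ + |X|²)` increases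
by at most `K` (`And8` - `And11`).  If `μ` has bounded potential this holds for `λ` the uniform distribution
on the circle, with `K` independent of `A`, and in (a) for the replacement of a part of the coefficients
(`And12`).
(3) For coefficients uniformly distributed on the circle the law of `W D` is invariant under rotations, and
by subharmonicity the determinant of `A + W D` is at least that of `W D`, which is that of `W`.  So in case (b)
the determinants of all `T - c` are bounded below by a positive constant.  In case (a), if a proportion `p`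
of the coefficients is replaced, the mean of `log Δ(T - c)` over the circle `|c - τ(T)| = r` is at least
`(1 - p) log r - K`, which is larger than `log r` for small `r` (`And13` - `And16`).
(4) If `Δ(T - c) > |τ(T) - c|` for some `c`, then almost every value of `T` has hyperinvariant subspaces: the
method of Haagerup and Schultz applies to a multiple of `T - c` (`Crit`).
-/

set_option autoImplicit false
open MeasureTheory

namespace Pool.Agent.Results.MP_f981b0_an.RandomCoefficients

/-- the Hilbert space of square summable complex functions on `S` -/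
abbrev L2 (S : Type) : Type := lp (fun _ : S => ℂ) 2

/-- the bounded operators on `ℓ²(S)` -/
abbrev Op (S : Type) : Type := L2 S →L[ℂ] L2 S

open Classical in
/-- the unit vector of `ℓ²(S)` at `v` -/
noncomputable def delta {S : Type} (v : S) : L2 S := lp.single 2 v (1 : ℂ)

/-- the matrix entry `⟨δ_u, X δ_v⟩` -/
noncomputable def matrixEntry {S : Type} (X : Op S) (u v : S) : ℂ := (X (delta v) : S → ℂ) u

section
variable {H : Type} [NormedAddCommGroup H] [InnerProductSpace ℂ H] [CompleteSpace H]

/-- `ε + |X|²` -/
noncomputable def regularized (X : H →L[ℂ] H) (ε : ℝ) : H →L[ℂ] H :=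
  (ε : ℂ) • 1 + star X * X

/-- the logarithm of a positive invertible operator, given by the functional calculus -/
noncomputable def logarithm (X : H →L[ℂ] H) : H →L[ℂ] H := CFC.log X

end

/-- `G` acts on the probability space `(Ω, P)` by measure-preserving maps, and every measurable set which is
invariant under all of them has probability zero or one -/
structure ErgodicAction (G : Type) {Ω : Type} [Group G] [MeasurableSpace Ω] [MulAction G Ω]
    (P : Measure Ω) : Prop where
  preserving : ∀ g : G, MeasurePreserving (fun ω : Ω => g • ω) P P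
  ergodic : ∀ B : Set Ω, MeasurableSet B → (∀ g : G, (fun ω : Ω => g • ω) ⁻¹' B = B) →
    P B = 0 ∨ P Bᶜ = 0

/-- random operators on `ℓ²(G)`: bounded measurable families of operators `A ω` which are covariant: `A (g ω)`
is the translate of `A ω` by `g` -/
structure RandomOperator {G Ω : Type} [Group G] [MeasurableSpace Ω] [MulAction G Ω]
    (A : Ω → Op G) : Prop where
  bounded : ∃ C : ℝ, ∀ ω, ‖A ω‖ ≤ C
  measurable : ∀ u v : G, Measurable fun ω => matrixEntry (A ω) u v
  covariant : ∀ (g u v : G) (ω : Ω),
    matrixEntry (A (g • ω)) (g * u) (g * v) = matrixEntry (A ω) u v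

/-- `T` has a closed subspace, neither `{0}` nor the whole space, which is invariant under every bounded
operator commuting with `T` -/
def HasHyperinvariantSubspace {H : Type} [NormedAddCommGroup H] [NormedSpace ℂ H] (T : H →L[ℂ] H) :
    Prop :=
  ∃ E : Submodule ℂ H, IsClosed (E : Set H) ∧ E ≠ ⊥ ∧ E ≠ ⊤ ∧
    ∀ Q : H →L[ℂ] H, (∀ f, Q (T f) = T (Q f)) → ∀ f ∈ E, Q f ∈ E

/-- `(1/2) E ⟨δ_1, log (ε + |W ω|²) δ_1⟩`, which decreases, as `ε` decreases to `0`, to `log Δ(W)`, the
logarithm of the Fuglede-Kadison determinant -/
noncomputable def logDet {G Ω : Type} [Group G] [MeasurableSpace Ω] (P : Measure Ω) (W : Ω → Op G)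
    (ε : ℝ) : ℝ :=
  (1 / 2) * ∫ ω, (matrixEntry (logarithm (regularized (W ω) ε)) 1 1).re ∂P

/-- the Fuglede-Kadison determinant of `W` is positive -/
def PositiveDeterminant {G Ω : Type} [Group G] [MeasurableSpace Ω] (P : Measure Ω)
    (W : Ω → Op G) : Prop :=
  ∃ κ : ℝ, ∀ ε : ℝ, 0 < ε → κ ≤ logDet P W ε

/-- the logarithmic potential of `ν` is bounded: the integrals of `max (log (1 / |t - s|), 0)` over `s` with
respect to `ν` are bounded in `t` -/
def HasBoundedPotential (ν : Measure ℂ) : Prop :=
  ∃ C : ℝ, ∀ t : ℂ, ∫⁻ s, ENNReal.ofReal (-Real.log ‖t - s‖) ∂ν ≤ ENNReal.ofReal C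

/-- `μ` is not polar: a nonzero part of `μ` has bounded logarithmic potential -/
def NotPolar (μ : Measure ℂ) : Prop := ∃ σ : Measure ℂ, σ ≤ μ ∧ σ ≠ 0 ∧ HasBoundedPotential σ

/-- all `W ω` are diagonal, and `W ω ≠ 0` with positive probability -/
def DiagonalNonzero {G Ω : Type} [Group G] [MeasurableSpace Ω] (P : Measure Ω) (W : Ω → Op G) :
    Prop :=
  (∀ (ω : Ω) (u v : G), u ≠ v → matrixEntry (W ω) u v = 0) ∧ ¬ ∀ᵐ ω ∂P, W ω = 0

/-- `V` has an inverse which is a random operator -/
def Invertible {G Ω : Type} [Group G] [MeasurableSpace Ω] [MulAction G Ω] (V : Ω → Op G) : Prop :=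
  ∃ V' : Ω → Op G, RandomOperator V' ∧ ∀ ω, V' ω * V ω = 1 ∧ V ω * V' ω = 1

/-- `D` is the diagonal operator with the entries `ξ v` -/
def IsDiagonal {G : Type} (D : Op G) (ξ : G → ℂ) : Prop :=
  (∀ v, matrixEntry D v v = ξ v) ∧ ∀ u v, u ≠ v → matrixEntry D u v = 0

open Pool.Agent.W611.RO Pool.Agent.H21.And

theorem delta_stb {S : Type} (v : S) : delta v = stb S v := by
  classical
  refine lp.ext (funext fun i => ?_)
  rw [stb_apply]
  unfold delta
  rw [lp.single_apply, Pi.single_apply]

theorem entry_inner {S : Type} (X : Op S) (u v : S) :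
    matrixEntry X u v = inner ℂ (stb S u) (X (stb S v)) := by
  unfold matrixEntry
  rw [delta_stb, stb_coord]

theorem hyp_of {S : Type} {T : Op S} (h : Pool.Agent.W611.RO.HasHyp T) :
    HasHyperinvariantSubspace T := by
  obtain ⟨W, h1, h2, h3, h4⟩ := h
  exact ⟨W, h1, h2, h3, fun Q hQ => h4 Q (ContinuousLinearMap.ext hQ)⟩

/-- random operators as fields -/
theorem field_of {G Ω : Type} [Group G] [Countable G] [MeasurableSpace Ω] [MulAction G Ω]
    {L : G → unitary (Op G)} (hL : Reg (stb G) L) {A : Ω → Op G} (hA : RandomOperator A) :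
    ∃ S : CF (Ω := Ω) (stb G) L, ∀ ω, ev (stb G) L ω S = A ω := by
  obtain ⟨C, hC⟩ := hA.bounded
  refine exists_field hL A hC (fun u v => ?_) (fun g u v ω => ?_)
  · have := hA.measurable u v
    simp_rw [entry_inner] at this
    exact this
  · have := hA.covariant g u v ω
    rw [entry_inner, entry_inner] at this
    exact this

theorem result (G Ω : Type) [Group G] [Countable G] [Infinite G] [MeasurableSpace Ω]
    [MulAction G Ω] (P : Measure Ω) [IsProbabilityMeasure P] (hP : ErgodicAction G P)
    (A W V : Ω → Op G) (hA : RandomOperator A) (hW : RandomOperator W) (hV : RandomOperator V)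
    (μ : Measure ℂ) [IsProbabilityMeasure μ] (hμ : ∃ R : ℝ, ∀ᵐ z ∂μ, ‖z‖ ≤ R)
    (h : ((∀ ω, V ω = 1) ∧ DiagonalNonzero P W ∧ NotPolar μ) ∨
      (Invertible V ∧ PositiveDeterminant P W ∧ HasBoundedPotential μ)) :
    ∀ᵐ x ∂(P.prod (Measure.infinitePi fun _ : G => μ)), ∃ D : Op G, IsDiagonal D x.2 ∧
      HasHyperinvariantSubspace (A x.1 + W x.1 * D * V x.1) := by
  classical
  have hE : Erg G P := ⟨hP.preserving, hP.ergodic⟩
  have hm0 : ∀ g : G, Measurable fun ω : Ω => g • ω := fun g => (hE.mp g).measurable
  obtain ⟨L, hL⟩ := Pool.Agent.TH315.LO.exists_reg (stb G)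
  obtain ⟨SA, hSA⟩ := field_of hL hA
  obtain ⟨SW, hSW⟩ := field_of hL hW
  obtain ⟨SV, hSV⟩ := field_of hL hV
  obtain ⟨R', hR'⟩ := hμ
  set R : ℝ := max R' 0 with hR
  have hR0 : 0 ≤ R := le_max_right _ _
  have hμR : ∀ᵐ z ∂μ, ‖z‖ ≤ R := hR'.mono fun z hz => hz.trans (le_max_left _ _)
  -- the diagonal field
  have hm' : ∀ g : G, Measurable fun x : Env Ω G ℂ => g • x := fun g =>
    Measurable.prodMk ((hm0 g).comp measurable_fst) ((sh_meas g).comp measurable_snd)
  have hcm : Measurable (fun x : Env Ω G ℂ => cl R (x.2 1)) :=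
    (cl_meas R).comp ((measurable_pi_apply 1).comp measurable_snd)
  obtain ⟨D, hD, -⟩ := exists_D (b := stb G) hL hm' hcm (B := R) (fun x => cl_bd hR0 _)
  have hDat : ∀ (x : Env Ω G ℂ) (k : G),
      ev (stb G) L x D (stb G k) = cl R (x.2 k) • stb G k := by
    intro x k
    rw [hD x k, smul_env]
    simp only [sh_inv_one]
  have hDdiag : ∀ x : Env Ω G ℂ, (∀ v, ‖x.2 v‖ ≤ R) → IsDiagonal (ev (stb G) L x D) x.2 := by
    intro x hx
    refine ⟨fun v => ?_, fun u v huv => ?_⟩
    · rw [entry_inner, hDat, cl_of (hx v), inner_smul_right, inner_self_eq_norm_sq_to_K,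
        (stb G).orthonormal.1 v]
      simp
    · rw [entry_inner, hDat, inner_smul_right, (stb G).orthonormal.2 huv, mul_zero]
  have hmarks := ae_marks (G := G) (P := P) hμR
  rcases h with ⟨hV1, ⟨hWd, hW0⟩, σ, hσμ, hσ0, hσ⟩ | ⟨⟨V', hV', hVV⟩, ⟨κ, hκ⟩, hBP⟩
  · -- first case
    obtain ⟨S₀, hS₀, hS₀R, hS₀μ, hS₀BP⟩ := exists_S hσμ hσ0 hσ hμR
    set α : Ω → ℂ := fun ω => matrixEntry (W ω) 1 1 with hα
    obtain ⟨C, hC⟩ := hW.bounded
    have hαb : ∀ ω, ‖α ω‖ ≤ max C 0 := by
      intro ω
      rw [hα]
      dsimp only
      rw [entry_inner]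
      refine (norm_inner_le_norm _ _).trans ?_
      rw [(stb G).orthonormal.1 1, one_mul]
      refine ((W ω).le_opNorm _).trans ?_
      rw [(stb G).orthonormal.1 1, mul_one]
      exact (hC ω).trans (le_max_left _ _)
    have hWat : IsD (stb G) L α SW := by
      intro ω k
      rw [hSW]
      refine (stb G).repr.injective (lp.ext (funext fun u => ?_))
      rw [(stb G).repr_apply_apply, (stb G).repr_apply_apply, ← entry_inner, inner_smul_right]
      by_cases huk : u = k
      · subst huk
        have h1 := hW.covariant u⁻¹ u u ω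
        rw [inv_mul_cancel] at h1
        rw [inner_self_eq_norm_sq_to_K, (stb G).orthonormal.1 u, ← h1]
        simp [hα]
      · rw [hWd ω u k huk, (stb G).orthonormal.2 huk, mul_zero]
    have hα0 : ¬ ∀ᵐ ω ∂P, α ω = 0 := by
      intro h0
      apply hW0
      have h1 : ∀ᵐ ω ∂P, ∀ k : G, α (k⁻¹ • ω) = 0 :=
        MeasureTheory.ae_all_iff.2 fun k => (hE.mp k⁻¹).quasiMeasurePreserving.ae h0
      filter_upwards [h1] with ω hω
      rw [← hSW]
      refine op_ext (b := stb G) fun k => ?_
      rw [hWat ω k, hω k, zero_smul]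
      rfl
    obtain ⟨T, hT⟩ := exists_T hL hm0 SA SW hR0
    have h1 := hyp_A (μ := μ) hL hE SA SW (hW.measurable 1 1) hR0 (le_max_right C 0) hαb hα0 hWat
      hS₀ hS₀R hS₀μ hS₀BP hT
    have h2 : ∀ᵐ x ∂(PK (G := G) P μ), ∃ D : Op G, IsDiagonal D x.2 ∧
        HasHyperinvariantSubspace (A x.1 + W x.1 * D * V x.1) := by
      filter_upwards [h1, hmarks] with x hx hx2
      refine ⟨ev (stb G) L x D, hDdiag x hx2, ?_⟩
      have h3 : A x.1 + W x.1 * ev (stb G) L x D * V x.1 = ev (stb G) L x T := by
        refine op_ext (b := stb G) fun k => ?_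
        rw [hT, hV1, mul_one, hSA, hSW]
        show A x.1 (stb G k) + W x.1 (ev (stb G) L x D (stb G k)) = _
        rw [hDat, map_smul]
      rw [h3]
      exact hyp_of hx
    exact h2
  · -- second case
    obtain ⟨SV', hSV'⟩ := field_of hL hV'
    have hV1 : SV' * SV = 1 := cf_ext fun ω => by
      rw [map_mul, hSV, hSV', (hVV ω).1, map_one]
    have hV2 : SV * SV' = 1 := cf_ext fun ω => by
      rw [map_mul, hSV, hSV', (hVV ω).2, map_one]
    have hlow : ∀ δ : ℝ, 0 < δ → 2 * κ ≤ Pool.Agent.H21.Smv.uu (tau P (stb G) L) δ SW := by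
      intro δ hδ
      have h1 := hκ δ hδ
      obtain ⟨-, h2⟩ := dt_tau (P := P) (SP.reg SW hδ)
      have h3 : Pool.Agent.H21.Smv.uu (tau P (stb G) L) δ SW = 2 * logDet P W δ := by
        refine Eq.trans h2 ?_
        unfold logDet
        rw [← mul_assoc, mul_one_div_cancel two_ne_zero, one_mul]
        refine integral_congr_ae (Filter.Eventually.of_forall fun ω => ?_)
        show (inner ℂ (stb G 1) (CFC.log (ev (stb G) L ω (algebraMap ℝ (CF (Ω := Ω) (stb G) L) δ
          + star SW * SW)) (stb G 1))).re = (matrixEntry (logarithm (regularized (W ω) δ)) 1 1).re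
        rw [entry_inner]
        unfold logarithm regularized
        rw [map_add, ev_alg, map_mul, map_star, hSW]
      rw [h3]
      linarith
    obtain ⟨Z, hZ⟩ := exists_T hL hm0 (0 : CF (Ω := Ω) (stb G) L) SW hR0
    obtain ⟨Au, hAu⟩ := exists_up (E := ℂ) SA
    obtain ⟨Vu, hVu⟩ := exists_up (E := ℂ) SV
    have h1 := hyp_B (μ := μ) (T := Au + Z * Vu) (Z := Z) hL hE SA SW SV SV' hV1 hV2 hlow hR0 hμR
      hBP hZ (fun x => by rw [map_add, map_mul, hAu, hVu])
    have h2 : ∀ᵐ x ∂(PK (G := G) P μ), ∃ D : Op G, IsDiagonal D x.2 ∧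
        HasHyperinvariantSubspace (A x.1 + W x.1 * D * V x.1) := by
      filter_upwards [h1, hmarks] with x hx hx2
      refine ⟨ev (stb G) L x D, hDdiag x hx2, ?_⟩
      have h4 : ev (stb G) L x Z = W x.1 * ev (stb G) L x D := by
        refine op_ext (b := stb G) fun k => ?_
        rw [hZ, hSW, map_zero]
        show (0 : Op G) (stb G k) + _ = W x.1 (ev (stb G) L x D (stb G k))
        rw [hDat, map_smul, _root_.zero_apply, zero_add]
      have h3 : A x.1 + W x.1 * ev (stb G) L x D * V x.1 = ev (stb G) L x (Au + Z * Vu) := by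
        rw [map_add, map_mul, hAu, hVu, hSA, hSV, h4]
      rw [h3]
      exact hyp_of hx
    exact h2

end Pool.Agent.Results.MP_f981b0_an.RandomCoefficients
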