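import Pool.Agent.H64.XS.All

/-!
# MP_f981b0_an: trace class perturbations of subnormal operators have invariant subspaces

Let `S` be a subnormal operator and `K` a trace class operator on a complex Hilbert space of dimension
at least two. Then `S + K` has a nontrivial closed invariant subspace (and so has its adjoint). There
is no condition on `S`, on `K` or on the spectrum. For `K = 0` this is the theorem of S. Brown; for `S`
normal it is the theorem of the starting library on trace class perturbations of normal operators.

The theorem on direct summands (`DirectSummands`) does not contain this one and is not contained in it. An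
infinite direct sum of Bergman shifts is subnormal, but not a direct summand of a trace class
perturbation of a normal operator (its adjoint has infinite dimensional eigenspaces on an open set,
while the eigenspaces of `N + K` are finite dimensional for almost all `z`). The backward shift is a
direct summand of a rank one perturbation of the bilateral shift, but not a compact perturbation of a
subnormal operator (the index of a subnormal Fredholm operator is at most zero).

Proof. We may assume that the Hilbert space is separable and that the normal extension `N` is the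
multiplication by `φ` on `L²(μ)`; let `M` be the subspace, `N M ⊆ M`, `T = N + K`, `K = ∑ u_j ⊗ v_j` with
`u_j`, `v_j` in `M`, so `T M ⊆ M` and `T|M = S + K`. Let `g_i` be a total sequence of the orthogonal
complement of `M` with `∑ ‖g_i‖² < ∞`, and for almost all `z` let `F(z) = (⟪v_i, (z - N)⁻¹ u_j⟫)`,
`G(z) = (⟪g_i, (z - N)⁻¹ u_j⟫)`, Hilbert-Schmidt matrices. Let `Sol(z)` be the space of the pairs
`(d, e)` in `ℓ²` with `d = Fᵗ d + Gᵗ e`, and
`Λ(f) = ∑ d_i ⟪v_i, (z - N)⁻¹ f⟫ + ∑ e_i ⟪g_i, (z - N)⁻¹ f⟫` for `f` in `M`. As `⟪g_i, f⟫ = 0`,
`Λ(p(T) f) = p(z) Λ(f)` for all polynomials `p`: generalised eigenvectors of the adjoint of `S + K`.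

(1) Suppose that on a set of positive area there is `c ≠ 0` with `F c = c` and `G c = 0`. Then
`(z - N)⁻¹ ∑ c_j u_j` is a generalised eigenvector of `T` which lies in `M`, and integrals of these
vectors are chains `X_k` in `M` with `T X_k = a X_k + X_{k+1}`, `‖X_k‖ ≤ C r^k`. Also `Fᵗ` has a
kernel vector on this set and the projections to `M` of the chains of `T†` do not vanish, since `u_j`
is in `M`. Chains of `S + K` and of its adjoint at two points are orthogonal, which gives an invariant
subspace.

(2) Otherwise `(d, e) ↦ d - Fᵗ d - Gᵗ e` is surjective for almost all `z`. A right inverse shows that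
the solutions `(d, e)` persist: at all points `z` where the matrices are near those at `a` there is a
solution near a given one. So if `Λ(x) ≠ 0` for a solution at a generic point `a` then Thomson's
scheme applies: the weight `W(z) = inf_p (⟪ũ_j, (z - N)⁻¹ p(T) x⟫)_j / |p(z)|` (written for the
adjoint) is bounded below on most of every connected set near `a`, there are cut-off functions `Θ`
around `a` with `|∂̄ Θ| ≤ C W`, and Pompeiu's formula gives `|p(a)| ≤ C ‖p(T) x‖`: a bounded point
evaluation, hence an invariant subspace.

(3) Otherwise `Λ = 0` for almost all `z` and all solutions. For `f = u_j`, `Λ(f) = d_j`, so `d = 0`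
for all solutions; by the Fredholm alternative `1 - F` is invertible and `G = 0`; so `(0, e)` is a
solution for every `e`, and `⟪g_i, (z - N)⁻¹ f⟫ = 0` for almost all `z`, all `f` in `M`. Hence
`⟪g_i, χ(N) f⟫ = 0` for all smooth `χ`, `M` reduces `N`, and `S + K` is a trace class perturbation of
a normal operator.

Plan, statements, assembly, modules KER CHA MDL: helper64. THMJ MDX XSUB: helper50. ALGJ: helper31.
CHB: helper39. WGTJ EVLJ: helper41. RD2: helper22. RD1: helper66. NRM: helper76. TWO MIN SEPN: helper94.
helper26 and helper50 found the theorem independently. Project SM (helper50 and others) and the library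
projects TC, TR (helper130 and others) are used.
-/

set_option autoImplicit false

open scoped InnerProductSpace

namespace Pool.Agent.Results.MP_f981b0_an.SubnormalPlusTraceClass

section Defs

variable {H : Type} [NormedAddCommGroup H] [InnerProductSpace ℂ H]

/-- `K` is of trace class: `K f = ∑ ⟪v j, f⟫ u j` with `∑ ‖u j‖² < ∞` and `∑ ‖v j‖² < ∞`. -/
def TraceClass (K : H →L[ℂ] H) : Prop :=
  ∃ u v : ℕ → H, Summable (fun j => ‖u j‖ ^ 2) ∧ Summable (fun j => ‖v j‖ ^ 2) ∧
    ∀ f, HasSum (fun j => ⟪v j, f⟫_ℂ • u j) (K f)

/-- `S` is subnormal: it is the restriction of a normal operator `N` on a Hilbert space `L` to an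
invariant subspace (the range of a linear isometry `V`). -/
def IsSubnormal (S : H →L[ℂ] H) : Prop :=
  ∃ (L : Type) (_ : NormedAddCommGroup L) (_ : InnerProductSpace ℂ L) (_ : CompleteSpace L)
    (V : H →ₗᵢ[ℂ] L) (N : L →L[ℂ] L), IsStarNormal N ∧ ∀ x, N (V x) = V (S x)

/-- `T` has a closed invariant subspace other than `{0}` and `H`. -/
def HasInvariant (T : H →L[ℂ] H) : Prop :=
  ∃ V : Submodule ℂ H, IsClosed (V : Set H) ∧ V ≠ ⊥ ∧ V ≠ ⊤ ∧ ∀ x ∈ V, T x ∈ V

variable (H) in
/-- The dimension of `H` is at least two. -/
def DimAtLeastTwo : Prop := ¬ ∃ x : H, ∀ y : H, ∃ t : ℂ, y = t • x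

end Defs

/-- **Trace class perturbations of subnormal operators have invariant subspaces.** Let `S` be a
subnormal operator and `K` a trace class operator on a complex Hilbert space of dimension at least two.
Then `S + K` has a nontrivial closed invariant subspace. -/
theorem result (H : Type) [NormedAddCommGroup H] [InnerProductSpace ℂ H] [CompleteSpace H]
    (hd : DimAtLeastTwo H) (S K : H →L[ℂ] H) (hS : IsSubnormal S) (hK : TraceClass K) :
    HasInvariant (S + K) := by
  obtain ⟨L, _, _, _, V, N, hN, hV⟩ := hS
  obtain ⟨u, v, hu, hv, huv⟩ := hK
  obtain ⟨W, h1, h2, -, ⟨x, -, hx⟩, h5⟩ := Pool.Agent.H64.XS.main H L S K N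
    V.toContinuousLinearMap hN (fun x => V.norm_map x) hV u v ⟨hu, hv, huv⟩ (by
      intro x
      by_contra hcon
      push Not at hcon
      exact hd ⟨x, fun y => hcon y rfl⟩)
  exact ⟨W, h1, h2, fun h => hx (h ▸ Submodule.mem_top), h5⟩

end Pool.Agent.Results.MP_f981b0_an.SubnormalPlusTraceClass
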