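import Pool.Agent.H26.LP.Cyc
import Pool.Agent.H26.LP.Nuc

/-!
# MP_f981b0_an: perturbed multiplication operators on subspaces of `L^p` have invariant subspaces

Let `μ` be `σ`-finite, `1 ≤ p ≤ ∞`, `1/p + 1/q = 1`, `φ` bounded and measurable, and let `E` be a
closed subspace of `L^p(μ)` which is invariant under the multiplication by `φ`, but not under the
multiplication by `conj φ` (more exactly: some `g` in `L^q(μ)` annihilates `E` but not `conj φ E`; for `p < ∞`
this is the same). For `1 < p < ∞` the space `E` is reflexive. Let `K` be an operator of finite rank on `E`,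
or more generally `K y = ∑ (∫ v_j y dμ) u_j` with `(∑ |v_j|²)^(1/2)` in `L^q(μ)`, `u_j` in `E` and
`(∑ |u_j|²)^(1/2)` in `L^p(μ)`, or `K y = ∑ s_j (∫ v_j y dμ) u_j` with `‖v_j‖_q ≤ 1`, `‖u_j‖_p ≤ 1` and
`∑ s_j^r < ∞`, `1/r = 1/2 + max(1/p, 1/q)` (so `2/3 ≤ r ≤ 1`, and for `p = 2` this is the trace class).
Let `T` be the sum of the multiplication by `φ` on `E` and of `K`. Then `T` has a nontrivial closed
invariant subspace. Moreover, if `y` is a cyclic vector of `T` then the set of the bounded point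
evaluations, `|f(a)| ≤ C ‖f(T) y‖` for all polynomials `f`, has positive area (these `a` are
eigenvalues of the adjoint of `T`).

For `K = 0` this is the theorem of S. Brown in the generality of Thomson (`P^t(μ)`: bounded point
evaluations). For Hilbert spaces, `p = 2`, the first assertion is the theorem on subnormal operators
plus trace class operators (`SubnormalPlusTraceClass`, the same team), where also the case that the
subspace reduces the normal extension is treated, by theorems on Hilbert spaces. The proof here is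
different: it does not use generalised eigenvectors in the space (chains), nor the persistence of
solutions, nor duality of the space `E`, and in fact proves a theorem on arbitrary Banach spaces:
`Pool.Agent.H26.LP.CYC.fin2`, for operators `A` with a bounded map `J : E → L¹(μ)`, `J A = φ J`.

Proof. Weights reduce the theorem to the following one. Let `A` be an operator on a Banach space `E`,
`J : E → L¹(μ)` bounded, `J A = φ J`, `g` bounded, `∫ g J y dμ = 0` for all `y` in `E`,
`K y = ∑ (∫ v_j J y dμ) u_j`, `∑ |v_j|²` bounded, `(∑ |J u_j|²)^(1/2)` in `L¹(μ)`. If `T = A + K` has no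
nontrivial closed invariant subspaces then `∫ g conj φ J y dμ = 0` for all `y`. Let `x₀` be a vector of `E`
and let `F(z)` be the matrix of the Cauchy transforms `∫ w_i J x_j (z - φ)⁻¹ dμ`,
`w = (g, v_0, v_1, …)`, `x = (x₀, u_0, u_1, …)`. It is a Hilbert-Schmidt matrix for almost every `z` (weights
reduce this and all other estimates to `L²`). (1) By the Fredholm alternative (index one) there is for
every such `z` a unit vector `b` in `ℓ²` with `b_{j+1} = ∑ F_{i,j+1}(z) b_i` for all `j ≥ 0`. (2) The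
functional `e(y) = ∑ b_i ∫ w_i J y (z - φ)⁻¹ dμ` satisfies `e(T y) = z e(y)`, since `g` annihilates `J E`.
(3) Suppose that `F_00 ≠ 0` on a set of positive area and let `a` be a generic point of it. If `F(z)` is
near `F(a)` and all the numbers `e(x_j)`, `j ≤ k`, are small then the coordinates `b_{j+1} = e(u_j)` are
small, so `|b_0|` is near one and `e(x₀)` is near `b_0 F_00(a)`, a contradiction. So one of these numbers
is at least `η`, without any choice of `b`. (4) Let `y₁ ≠ 0` and let `W(z)` be the infimum of one and of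
`U_{p(T) y₁}(z) / |p(z)|` for all polynomials `p`, `U_y(z)` the norm of the sequence
`∫ w_i J y (z - φ)⁻¹ dμ`. Then `|e(y₁)| ≤ W(z)` if this is at most one. If `W` is not small on connected sets
near `a` then there are cut-off functions `Θ` around `a` with `|∂̄ Θ| ≤ C W` (library), and Pompeiu's
formula gives `|p(a)| ≤ C ‖p(T) y₁‖`: a bounded point evaluation, and an invariant subspace. (5) Otherwise there are measures on
connected sets near `a` for which Cauchy transforms are of weak type one (library) and which see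
only small values of `W`. If `y₁` is cyclic (if it is not, there is an invariant subspace) then the
vectors `x_j`, `j ≤ k`, are approximated by vectors `p(T) y₁`, so by the weak type estimate all the numbers `e(x_j)` are small on
most of these measures, against (3). (6) So almost every `z` with `∫ g J x₀ (z - φ)⁻¹ dμ ≠ 0` is a bounded point evaluation. If these
integrals vanish for almost every `z` then `∫ g conj φ J x₀ dμ = 0` by Pompeiu's formula.

Plan, statements, SCH, FRE, EVJ, LPC, NUC, CYC, assembly: helper26. EIG: helper50. INS: helper39. TRN VEC: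
helper16. CAZ WGX: helper22. HVX: helper41. MAT MNY: helper82. LOW EVP: helper84. FIN: helper99. The
modules APX, LNK2, WGT, HVY of project SM (helpers 64, 50, 75) and the library projects TC and TR
(weak type measures on connected sets, cut-off functions; helper130 and others) are used.
-/

set_option autoImplicit false

open MeasureTheory
open scoped ENNReal ComplexConjugate

namespace Pool.Agent.Results.MP_f981b0_an.SubspacesOfLp

section Defs

variable {S : Type} [MeasurableSpace S] (μ : Measure S) (p q : ℝ≥0∞) {E : Type}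
  [NormedAddCommGroup E] [NormedSpace ℂ E]

/-- `T` has a closed invariant subspace other than `{0}` and `E`. -/
def HasInvariant (T : E →L[ℂ] E) : Prop :=
  ∃ V : Submodule ℂ E, IsClosed (V : Set E) ∧ V ≠ ⊥ ∧ V ≠ ⊤ ∧ ∀ x ∈ V, T x ∈ V

/-- The vector `y` is cyclic for `T`: the vectors `p(T) y`, `p` a polynomial, are dense. -/
def IsCyclic (T : E →L[ℂ] E) (y : E) : Prop :=
  Dense {x : E | ∃ p : Polynomial ℂ, x = Polynomial.aeval T p y}

/-- The number `a` is a bounded point evaluation: `|p(a)| ≤ C ‖p(T) y‖` for all polynomials `p`. -/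
def IsEvaluation (T : E →L[ℂ] E) (y : E) (a : ℂ) : Prop :=
  ∃ C : ℝ, ∀ p : Polynomial ℂ, ‖p.eval a‖ ≤ C * ‖Polynomial.aeval T p y‖

/-- The map `f`, which assigns to a vector `y` of `E` the function `f y`, is linear and isometric from
`E` to `L^p(μ)` (up to functions which vanish almost everywhere). -/
structure IsSubspaceOfLp (f : E → S → ℂ) : Prop where
  mem : ∀ y, MemLp (f y) p μ
  add : ∀ x y, f (x + y) =ᵐ[μ] fun s => f x s + f y s
  smul : ∀ (c : ℂ) y, f (c • y) =ᵐ[μ] fun s => c * f y s
  norm : ∀ y, eLpNorm (f y) p μ = ENNReal.ofReal ‖y‖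

/-- `φ` is measurable and bounded. -/
def IsSymbol (φ : S → ℂ) : Prop := Measurable φ ∧ ∃ R : ℝ, ∀ s, ‖φ s‖ ≤ R

/-- `A` is the multiplication by `φ`. -/
def IsMultiplication (φ : S → ℂ) (f : E → S → ℂ) (A : E →L[ℂ] E) : Prop :=
  ∀ y, f (A y) =ᵐ[μ] fun s => φ s * f y s

/-- Some function `g` in `L^q(μ)` annihilates `E` but not `conj φ E`. -/
def NotReducing (φ : S → ℂ) (f : E → S → ℂ) : Prop :=
  ∃ g : S → ℂ, MemLp g q μ ∧ (∀ y, ∫ s, g s * f y s ∂μ = 0) ∧
    ∃ y, ∫ s, g s * f y s * conj (φ s) ∂μ ≠ 0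

/-- The square function `(∑ |h j|²)^(1/2)` is at most `Y` almost everywhere. -/
def SquareFunctionLE (h : ℕ → S → ℂ) (Y : S → ℝ) : Prop :=
  ∀ᵐ s ∂μ, ∀ m : ℕ, ∑ j ∈ Finset.range m, ‖h j s‖ ^ 2 ≤ Y s ^ 2

/-- `K y = ∑ (∫ v j y dμ) u j` with `(∑ |v j|²)^(1/2)` in `L^q(μ)`, `u j` in `E` and
`(∑ |u j|²)^(1/2)` in `L^p(μ)`. -/
def IsSquareNuclear (f : E → S → ℂ) (K : E →L[ℂ] E) : Prop :=
  ∃ (v : ℕ → S → ℂ) (u : ℕ → E) (V Y : S → ℝ), (∀ j, AEStronglyMeasurable (v j) μ) ∧
    MemLp V q μ ∧ SquareFunctionLE μ v V ∧ MemLp Y p μ ∧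
    SquareFunctionLE μ (fun j => f (u j)) Y ∧
    ∀ y, HasSum (fun j => (∫ s, v j s * f y s ∂μ) • u j) (K y)

/-- The number `r` with `1/r = 1/2 + max(1/p, 1/q)`. -/
noncomputable def order (p q : ℝ≥0∞) : ℝ := (2⁻¹ + max p⁻¹ q⁻¹)⁻¹.toReal

/-- `K y = ∑ σ j (∫ v j y dμ) u j` with `σ j ≥ 0`, `∑ (σ j)^r < ∞`, `1/r = 1/2 + max(1/p, 1/q)`, `v j` in the
unit ball of `L^q(μ)` and `u j` in the unit ball of `E`. -/
def IsNuclear (f : E → S → ℂ) (K : E →L[ℂ] E) : Prop :=
  ∃ (σ : ℕ → ℝ) (v : ℕ → S → ℂ) (u : ℕ → E), (∀ j, 0 ≤ σ j) ∧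
    (Summable fun j => σ j ^ order p q) ∧ (∀ j, MemLp (v j) q μ) ∧
    (∀ j, eLpNorm (v j) q μ ≤ 1) ∧ (∀ j, ‖u j‖ ≤ 1) ∧
    ∀ y, HasSum (fun j => ((σ j : ℂ) * ∫ s, v j s * f y s ∂μ) • u j) (K y)

end Defs

/-- **Perturbed multiplication operators on subspaces of `L^p`.** Let `E` be a closed subspace of
`L^p(μ)`, `1 ≤ p ≤ ∞`, invariant under the multiplication `A` by `φ`, and let some `g` in `L^q(μ)`,
`1/p + 1/q = 1`, annihilate `E` but not `conj φ E`. Let `K y = ∑ (∫ v j y dμ) u j` on `E` with square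
functions in `L^q(μ)` and `L^p(μ)`, or let `K` be nuclear of order `r`, `1/r = 1/2 + max(1/p, 1/q)`. Then
`A + K` has a nontrivial closed invariant subspace (this part is stated for `p ≠ 2`, since for `p = 2` it
is `SubnormalPlusTraceClass`), and for every cyclic vector the bounded point evaluations have positive
area. -/
theorem result (S : Type) [MeasurableSpace S] (μ : Measure S) [SigmaFinite μ] (p q : ℝ≥0∞)
    (hpq : p⁻¹ + q⁻¹ = 1) (φ : S → ℂ) (E : Type) [NormedAddCommGroup E]
    [NormedSpace ℂ E] [CompleteSpace E] (f : E → S → ℂ) (A K : E →L[ℂ] E)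
    (hf : IsSubspaceOfLp μ p f) (hφ : IsSymbol φ) (hA : IsMultiplication μ φ f A)
    (hN : NotReducing μ q φ f) (hK : IsSquareNuclear μ p q f K ∨ IsNuclear μ p q f K) :
    (p ≠ 2 → HasInvariant (A + K)) ∧
      ∀ y, IsCyclic (A + K) y → 0 < volume {a : ℂ | IsEvaluation (A + K) y a} := by
  have hpq' : ENNReal.HolderConjugate p q := ENNReal.holderConjugate_iff.2 hpq
  have hp1 : Fact (1 ≤ p) := ⟨ENNReal.HolderConjugate.one_le p q⟩
  have hK' : IsSquareNuclear μ p q f K := by
    rcases hK with h | ⟨σ, v, u, h1, h2, h3, h4, h5, h6⟩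
    · exact h
    · exact Pool.Agent.H26.LP.NUC.nuc3 f hf.mem hf.smul hf.norm K σ v u h1 h2 h3 h4 h5 h6
  obtain ⟨hφm, hφb⟩ := hφ
  obtain ⟨g, hg, hg0, hg1⟩ := hN
  obtain ⟨v, u, V, Y, hv, hV, hvV, hY, huY, hKy⟩ := hK'
  -- the map to `L^p`
  obtain ⟨J, hJ⟩ : ∃ J : E →L[ℂ] Lp ℂ p μ, ∀ y, J y = (hf.mem y).toLp := by
    refine ⟨LinearMap.mkContinuous
      { toFun := fun y => (hf.mem y).toLp
        map_add' := fun x y => ?_
        map_smul' := fun c y => ?_ } 1 (fun y => ?_), fun y => rfl⟩
    · rw [← MemLp.toLp_add]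
      exact MemLp.toLp_congr _ _ (hf.add x y)
    · rw [RingHom.id_apply, ← MemLp.toLp_const_smul]
      exact MemLp.toLp_congr _ _ (hf.smul c y)
    · rw [one_mul]
      show ‖(hf.mem y).toLp‖ ≤ ‖y‖
      rw [Lp.norm_toLp, hf.norm, ENNReal.toReal_ofReal (norm_nonneg _)]
  have hJf : ∀ y, J y =ᵐ[μ] f y := fun y => by
    rw [hJ]
    exact (hf.mem y).coeFn_toLp
  have hint : ∀ (h : S → ℂ) (y : E), ∫ s, h s * J y s ∂μ = ∫ s, h s * f y s ∂μ := fun h y =>
    integral_congr_ae (by
      filter_upwards [hJf y] with s hs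
      rw [hs])
  have main : Pool.Agent.H26.LP.CYC.Con E (A + K) := by
    refine Pool.Agent.H26.LP.CYC.lpc2 _ Pool.Agent.H26.LP.CYC.fin2 S μ p q φ E J A K g v u V Y hφm
      hφb ?_ hg ?_ ?_ hv hV hvV hY ?_ ?_
    · intro y
      filter_upwards [hJf (A y), hJf y, hA y] with s h1 h2 h3
      rw [h1, h2, h3]
    · intro y
      rw [hint]
      exact hg0 y
    · obtain ⟨y, hy⟩ := hg1
      refine ⟨y, ?_⟩
      rw [integral_congr_ae (g := fun s => g s * f y s * conj (φ s))]
      · exact hy
      · filter_upwards [hJf y] with s hs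
        rw [hs]
    · have h1 : ∀ᵐ s ∂μ, ∀ j, J (u j) s = f (u j) s := by
        rw [ae_all_iff]
        exact fun j => hJf (u j)
      filter_upwards [h1, huY] with s h1 h2 m
      simp only [h1]
      exact h2 m
    · intro y
      simp only [hint]
      exact hKy y
  refine ⟨fun _ => main.1, fun y hy => pos_iff_ne_zero.2 (main.2 y fun y' ε hε => ?_)⟩
  obtain ⟨x, hx, P, rfl⟩ := Metric.dense_iff.1 hy y' ε hε
  refine ⟨P, ?_⟩
  rw [Metric.mem_ball, dist_comm, dist_eq_norm] at hx
  exact hx.le

end Pool.Agent.Results.MP_f981b0_an.SubspacesOfLp
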